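import Pool.Agent.Helper31.LQ.Goals

/-!
# Project LQ (MP_6fb600_gt), packet GD: the density of a Gaussian matrix
-/

open MeasureTheory Set ProbabilityTheory
open scoped ENNReal

noncomputable section

namespace Pool.Agent.Helper87.LQ

/-- Integral of a product of functions of the coordinates. -/
theorem lint_prod {α : Type*} [MeasurableSpace α] (μ : Measure α) [SigmaFinite μ] :
    ∀ (n : ℕ) (f : Fin n → α → ℝ≥0∞), (∀ i, Measurable (f i)) →
      ∫⁻ x : Fin n → α, ∏ i, f i (x i) ∂(Measure.pi fun _ : Fin n => μ) =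
        ∏ i, ∫⁻ x, f i x ∂μ := by
  intro n
  induction n with
  | zero =>
    intro f _
    simp
  | succ n ih =>
    intro f hf
    have hmp := (measurePreserving_piFinSuccAbove (fun _ : Fin (n + 1) => μ) 0).symm
    rw [← hmp.lintegral_comp_emb (MeasurableEquiv.measurableEmbedding _)]
    have e : ∀ z : α × (Fin n → α),
        ∏ i, f i ((MeasurableEquiv.piFinSuccAbove (fun _ : Fin (n + 1) => α) 0).symm z i) =
        f 0 z.1 * ∏ i : Fin n, f i.succ (z.2 i) := by
      intro z
      rw [Fin.prod_univ_succ]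
      rfl
    rw [lintegral_congr e]
    rw [lintegral_prod_mul (f := f 0) (g := fun y : Fin n → α => ∏ i : Fin n, f i.succ (y i))
      (hf 0).aemeasurable
      (Finset.measurable_prod _ fun i _ => (hf i.succ).comp (measurable_pi_apply i)).aemeasurable]
    rw [ih (fun i => f i.succ) (fun i => hf i.succ), Fin.prod_univ_succ]

/-- Product of measures with a density. -/
theorem pi_withDensity {α : Type*} [MeasurableSpace α] (μ : Measure α) [SigmaFinite μ] (n : ℕ)
    (f : α → ℝ≥0∞) (hf : Measurable f) [SigmaFinite (μ.withDensity f)] :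
    Measure.pi (fun _ : Fin n => μ.withDensity f) =
      (Measure.pi fun _ : Fin n => μ).withDensity fun x => ∏ i, f (x i) := by
  classical
  apply Measure.pi_eq
  intro s hs
  rw [withDensity_apply _ (MeasurableSet.univ_pi hs),
    ← lintegral_indicator (MeasurableSet.univ_pi hs)]
  have e : ∀ x : Fin n → α, (univ.pi s).indicator (fun x => ∏ i, f (x i)) x =
      ∏ i, (s i).indicator f (x i) := by
    intro x
    by_cases hx : x ∈ univ.pi s
    · rw [indicator_of_mem hx]
      apply Finset.prod_congr rfl
      intro i _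
      rw [indicator_of_mem (hx i (mem_univ i))]
    · rw [indicator_of_notMem hx]
      rw [mem_univ_pi, not_forall] at hx
      obtain ⟨i, hi⟩ := hx
      rw [Finset.prod_eq_zero (Finset.mem_univ i)]
      rw [indicator_of_notMem hi]
  rw [lintegral_congr e, lint_prod μ n (fun i => (s i).indicator f)
    (fun i => hf.indicator (hs i))]
  apply Finset.prod_congr rfl
  intro i _
  rw [lintegral_indicator (hs i), withDensity_apply _ (hs i)]

/-- Exchange of two indices. -/
theorem map_swap (γ : Measure ℝ) [IsProbabilityMeasure γ] (n d : ℕ) :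
    (Measure.pi fun _ : Fin d => Measure.pi fun _ : Fin n => γ).map
      (fun (h : Fin d → Fin n → ℝ) (l : Fin n) (a : Fin d) => h a l) =
    Measure.pi fun _ : Fin n => Measure.pi fun _ : Fin d => γ := by
  classical
  have hm : Measurable (fun (h : Fin d → Fin n → ℝ) (l : Fin n) (a : Fin d) => h a l) := by
    apply measurable_pi_lambda
    intro l
    apply measurable_pi_lambda
    intro a
    exact (measurable_pi_apply l).comp (measurable_pi_apply a)
  symm
  refine Measure.pi_eq_generateFrom
    (C := fun _ : Fin n => univ.pi '' (univ.pi fun _ : Fin d => {s : Set ℝ | MeasurableSet s}))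
    (fun _ => generateFrom_pi) (fun _ => isPiSystem_pi) (fun _ =>
      { set := fun _ => univ
        set_mem := fun _ => ⟨fun _ => univ, fun _ _ => (MeasurableSet.univ : MeasurableSet (univ : Set ℝ)),
          by simp⟩
        finite := fun _ => by simp
        spanning := iUnion_const _ }) ?_
  intro s hs
  choose t ht1 ht2 using hs
  have hs' : s = fun l => univ.pi (t l) := by
    funext l
    exact (ht2 l).symm
  subst hs'
  have htm : ∀ l a, MeasurableSet (t l a) := fun l a => ht1 l a (mem_univ a)
  rw [Measure.map_apply hm (MeasurableSet.univ_pi fun l => MeasurableSet.univ_pi (htm l))]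
  have hpre : (fun (h : Fin d → Fin n → ℝ) (l : Fin n) (a : Fin d) => h a l) ⁻¹'
      (univ.pi fun l => univ.pi (t l)) = univ.pi fun a => univ.pi fun l => t l a := by
    ext h
    simp only [mem_preimage, mem_univ_pi]
    exact ⟨fun H a l => H l a, fun H l a => H a l⟩
  rw [hpre, Measure.pi_pi]
  simp_rw [Measure.pi_pi]
  exact Finset.prod_comm

/-- Packet GD. -/
theorem gGD : Pool.Agent.Helper31.LQ.GD := by
  intro n d
  refine ⟨ENNReal.ofReal (Real.sqrt (2 * Real.pi))⁻¹ ^ (n * d), ?_, ?_, ?_⟩
  · apply ENNReal.pow_pos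
    rw [ENNReal.ofReal_pos]
    positivity
  · exact ENNReal.pow_lt_top ENNReal.ofReal_lt_top
  intro F hF
  -- the distribution
  have h1 : (Measure.pi fun _ : Fin d => stdGaussian (Pool.Agent.Helper31.LQ.E n)) =
      (Measure.pi fun _ : Fin d => Measure.pi fun _ : Fin n => gaussianReal 0 1).map
        (fun (h : Fin d → Fin n → ℝ) (a : Fin d) => WithLp.toLp 2 (h a)) := by
    rw [Measure.pi_map_pi (f := fun _ : Fin d => (WithLp.toLp 2 : (Fin n → ℝ) → _))
      (hμ := by
        intro i
        rw [map_pi_eq_stdGaussian]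
        infer_instance)
      (fun _ => (by fun_prop : Measurable (WithLp.toLp 2 : (Fin n → ℝ) →
        EuclideanSpace ℝ (Fin n))).aemeasurable)]
    simp_rw [map_pi_eq_stdGaussian]
  have hmeas1 : Measurable (fun (h : Fin d → Fin n → ℝ) (a : Fin d) =>
      (WithLp.toLp 2 (h a) : EuclideanSpace ℝ (Fin n))) := by
    fun_prop
  have hFs : Measurable (fun g : Fin d → Pool.Agent.Helper31.LQ.E n =>
      F (fun (l : Fin n) (a : Fin d) => g a l)) := by
    apply hF.comp
    apply measurable_pi_lambda
    intro l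
    apply measurable_pi_lambda
    intro a
    fun_prop
  rw [h1, lintegral_map hFs hmeas1]
  have hmsw : Measurable (fun (h : Fin d → Fin n → ℝ) (l : Fin n) (a : Fin d) => h a l) := by
    apply measurable_pi_lambda
    intro l
    apply measurable_pi_lambda
    intro a
    exact (measurable_pi_apply l).comp (measurable_pi_apply a)
  have h2 : ∫⁻ h : Fin d → Fin n → ℝ, F (fun (l : Fin n) (a : Fin d) =>
      (WithLp.toLp 2 (h a) : EuclideanSpace ℝ (Fin n)) l)
        ∂(Measure.pi fun _ : Fin d => Measure.pi fun _ : Fin n => gaussianReal 0 1) =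
      ∫⁻ Y, F Y ∂(Measure.pi fun _ : Fin n => Measure.pi fun _ : Fin d => gaussianReal 0 1) := by
    rw [← map_swap (gaussianReal 0 1) n d, lintegral_map hF hmsw]
  rw [h2]
  -- the density
  have hγ : gaussianReal 0 1 = (volume : Measure ℝ).withDensity (gaussianPDF 0 1) :=
    gaussianReal_of_var_ne_zero 0 one_ne_zero
  have hpm : Measurable (gaussianPDF 0 1) := measurable_gaussianPDF 0 1
  have : SigmaFinite ((volume : Measure ℝ).withDensity (gaussianPDF 0 1)) := by
    rw [← hγ]
    infer_instance
  have h3 : (Measure.pi fun _ : Fin d => gaussianReal 0 1) =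
      (volume : Measure (Fin d → ℝ)).withDensity (fun y => ∏ a, gaussianPDF 0 1 (y a)) := by
    rw [hγ]
    exact pi_withDensity volume d _ hpm
  have hpm2 : Measurable (fun y : Fin d → ℝ => ∏ a, gaussianPDF 0 1 (y a)) :=
    Finset.measurable_prod _ fun a _ => hpm.comp (measurable_pi_apply a)
  have : SigmaFinite ((volume : Measure (Fin d → ℝ)).withDensity
      (fun y => ∏ a, gaussianPDF 0 1 (y a))) := by
    rw [← h3]
    infer_instance
  have h4 : (Measure.pi fun _ : Fin n => Measure.pi fun _ : Fin d => gaussianReal 0 1) =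
      (volume : Measure (Fin n → Fin d → ℝ)).withDensity
        (fun Y => ∏ l, ∏ a, gaussianPDF 0 1 (Y l a)) := by
    rw [h3]
    exact pi_withDensity volume n _ hpm2
  have hpm3 : Measurable (fun Y : Fin n → Fin d → ℝ => ∏ l, ∏ a, gaussianPDF 0 1 (Y l a)) :=
    Finset.measurable_prod _ fun l _ => hpm2.comp (measurable_pi_apply l)
  rw [h4, lintegral_withDensity_eq_lintegral_mul _ hpm3 hF]
  have hexp : Measurable (fun Y : Fin n → Fin d → ℝ =>
      ENNReal.ofReal (Real.exp (-(∑ l, ∑ a, Y l a ^ 2) / 2))) := by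
    fun_prop
  have hFe : Measurable (fun Y : Fin n → Fin d → ℝ =>
      F Y * ENNReal.ofReal (Real.exp (-(∑ l, ∑ a, Y l a ^ 2) / 2))) := hF.mul hexp
  rw [← lintegral_const_mul _ hFe]
  apply lintegral_congr
  intro Y
  have h5 : ∀ y : ℝ, gaussianPDF 0 1 y =
      ENNReal.ofReal (Real.sqrt (2 * Real.pi))⁻¹ * ENNReal.ofReal (Real.exp (-y ^ 2 / 2)) := by
    intro y
    rw [gaussianPDF_def, gaussianPDFReal_def, ← ENNReal.ofReal_mul (by positivity)]
    simp
  have h6 : ∏ l, ∏ a, gaussianPDF 0 1 (Y l a) =
      ENNReal.ofReal (Real.sqrt (2 * Real.pi))⁻¹ ^ (n * d) *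
        ENNReal.ofReal (Real.exp (-(∑ l, ∑ a, Y l a ^ 2) / 2)) := by
    simp_rw [h5, Finset.prod_mul_distrib, Finset.prod_const, Finset.card_univ, Fintype.card_fin]
    rw [← pow_mul, mul_comm d n]
    congr 1
    simp_rw [← ENNReal.ofReal_prod_of_nonneg (fun i _ => (Real.exp_pos _).le), ← Real.exp_sum]
    rw [← ENNReal.ofReal_prod_of_nonneg (fun i _ => (Real.exp_pos _).le), ← Real.exp_sum]
    congr 2
    rw [← Finset.sum_neg_distrib, Finset.sum_div]
    apply Finset.sum_congr rfl
    intro l _
    rw [← Finset.sum_neg_distrib, Finset.sum_div]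
  show (∏ l, ∏ a, gaussianPDF 0 1 (Y l a)) * F Y = _
  rw [h6]
  ring

end Pool.Agent.Helper87.LQ
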